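import Mathlib
import Pool.Agent.H443R3.PCA

set_option autoImplicit false

open MeasureTheory ProbabilityTheory Filter Topology
open scoped ENNReal Pointwise

namespace Pool.Agent.Results.MP_37af32_pr.SlowErgodicPCA

open Pool.Agent.H443R3

/-- `Φ` is ergodic with unique invariant probability measure `π`: `π` is the only invariant
probability measure, and `μ Φ^t → π` weakly for every initial probability measure `μ`. -/
structure IsErgodic {d : ℕ} {S : Type} [TopologicalSpace S] [MeasurableSpace S] (Φ : PCA d S)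
    (π : Measure (Config d S)) : Prop where
  prob : IsProbabilityMeasure π
  invariant : Φ.evolve π = π
  unique : ∀ ν : Measure (Config d S), IsProbabilityMeasure ν → Φ.evolve ν = ν → ν = π
  converges : ∀ μ : Measure (Config d S), IsProbabilityMeasure μ →
    ∀ f : Config d S → ℝ, Continuous f →
      Tendsto (fun t : ℕ => ∫ x, f x ∂(Φ.evolve^[t] μ)) atTop (𝓝 (∫ x, f x ∂π))

/-- The difference `|μΦ^t(C) - π(C)|` for the cylinder `C = [u]`. -/
noncomputable def gap {d : ℕ} {S : Type} [MeasurableSpace S] (Φ : PCA d S)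
    (π μ : Measure (Config d S)) (A : Finset (Site d)) (u : A → S) (t : ℕ) : ℝ :=
  |((Φ.evolve^[t] μ) (cyl A u)).toReal - (π (cyl A u)).toReal|

/-- `Φ` is uniformly ergodic: for every cylinder the supremum over all initial probability
measures `μ` of `|μΦ^t(C) - π(C)|` tends to `0`. -/
def UniformlyErgodic {d : ℕ} {S : Type} [TopologicalSpace S] [MeasurableSpace S] (Φ : PCA d S)
    (π : Measure (Config d S)) : Prop :=
  IsErgodic Φ π ∧ ∀ (A : Finset (Site d)) (u : A → S), ∀ ε > 0, ∃ t₀ : ℕ, ∀ t ≥ t₀,
    ∀ μ : Measure (Config d S), IsProbabilityMeasure μ → gap Φ π μ A u t ≤ ε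

/-- `Φ` is exponentially ergodic: ergodic, and for every cylinder `C` there are `K < ∞` and
`γ < 1`, not depending on `μ`, with `|μΦ^t(C) - π(C)| ≤ K γ^t`. -/
def ExponentiallyErgodic {d : ℕ} {S : Type} [TopologicalSpace S] [MeasurableSpace S]
    (Φ : PCA d S) (π : Measure (Config d S)) : Prop :=
  IsErgodic Φ π ∧ ∀ (A : Finset (Site d)) (u : A → S), ∃ K γ : ℝ, 0 ≤ γ ∧ γ < 1 ∧
    ∀ μ : Measure (Config d S), IsProbabilityMeasure μ → ∀ t : ℕ, gap Φ π μ A u t ≤ K * γ ^ t

/-- The weaker variant, in which `K` and `γ` may also depend on the initial measure. -/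
def WeaklyExponentiallyErgodic {d : ℕ} {S : Type} [TopologicalSpace S] [MeasurableSpace S]
    (Φ : PCA d S) (π : Measure (Config d S)) : Prop :=
  IsErgodic Φ π ∧ ∀ μ : Measure (Config d S), IsProbabilityMeasure μ →
    ∀ (A : Finset (Site d)) (u : A → S), ∃ K γ : ℝ, 0 ≤ γ ∧ γ < 1 ∧
      ∀ t : ℕ, gap Φ π μ A u t ≤ K * γ ^ t

/-! ### A killed lazy random walk -/

/-- `W t n`: the probability that the lazy simple random walk started at `n` and absorbed at `0`
is at `0` at time `t`. -/
noncomputable def W : ℕ → ℕ → ℝ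
  | 0, 0 => 1
  | 0, _ + 1 => 0
  | _ + 1, 0 => 1
  | t + 1, n + 1 => (W t n + 2 * W t (n + 1) + W t (n + 2)) / 4

theorem W_zero_right (t : ℕ) : W t 0 = 1 := by cases t <;> simp [W]

theorem W_nonneg (t n : ℕ) : 0 ≤ W t n := by
  induction t generalizing n with
  | zero => cases n <;> simp [W]
  | succ t ih =>
    cases n with
    | zero => simp [W]
    | succ n =>
      simp only [W]
      linarith [ih n, ih (n + 1), ih (n + 2)]

theorem W_le_one (t n : ℕ) : W t n ≤ 1 := by
  induction t generalizing n with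
  | zero => cases n <;> simp [W]
  | succ t ih =>
    cases n with
    | zero => simp [W]
    | succ n =>
      simp only [W]
      linarith [ih n, ih (n + 1), ih (n + 2)]

theorem W_mono (t n : ℕ) : W t n ≤ W (t + 1) n := by
  induction t generalizing n with
  | zero =>
    cases n with
    | zero => simp [W]
    | succ n =>
      have h := W_nonneg 1 (n + 1)
      simpa [W] using h
  | succ t ih =>
    cases n with
    | zero => simp [W]
    | succ n =>
      have e1 : W (t + 1) (n + 1) = (W t n + 2 * W t (n + 1) + W t (n + 2)) / 4 := by simp only [W]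
      have e2 : W (t + 1 + 1) (n + 1) =
          (W (t + 1) n + 2 * W (t + 1) (n + 1) + W (t + 1) (n + 2)) / 4 := by
        conv_lhs => unfold W
      rw [e1, e2]
      linarith [ih n, ih (n + 1), ih (n + 2)]

/-- Survival has probability at least `n / M` as long as the walk cannot exceed `M`. -/
theorem W_upper (M : ℕ) (hM : 0 < M) (t n : ℕ) (h : n + t ≤ M) : W t n ≤ 1 - n / M := by
  have hM' : (0 : ℝ) < M := by exact_mod_cast hM
  induction t generalizing n with
  | zero =>
    cases n with
    | zero => simp [W]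
    | succ n =>
      simp only [W]
      have : ((n + 1 : ℕ) : ℝ) / M ≤ 1 := by
        rw [div_le_one hM']
        exact_mod_cast (by omega : n + 1 ≤ M)
      linarith
  | succ t ih =>
    cases n with
    | zero => simp [W]
    | succ n =>
      simp only [W]
      have h1 := ih n (by omega)
      have h2 := ih (n + 1) (by omega)
      have h3 := ih (n + 2) (by omega)
      push_cast at h1 h2 h3 ⊢
      have e : (n : ℝ) / M + 2 * (((n : ℝ) + 1) / M) + ((n : ℝ) + 2) / M = 4 * (((n : ℝ) + 1) / M) := by
        ring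
      linarith

theorem W_tendsto : Tendsto (fun t => W t 1) atTop (𝓝 1) := by
  have hmono : ∀ n, Monotone (fun t => W t n) := fun n => monotone_nat_of_le_succ (fun t => W_mono t n)
  have hbdd : ∀ n, BddAbove (Set.range (fun t => W t n)) := fun n =>
    ⟨1, by rintro _ ⟨t, rfl⟩; exact W_le_one t n⟩
  set L : ℕ → ℝ := fun n => ⨆ t, W t n with hL
  have hlim : ∀ n, Tendsto (fun t => W t n) atTop (𝓝 (L n)) := fun n =>
    tendsto_atTop_ciSup (hmono n) (hbdd n)
  have hL0 : L 0 = 1 := by
    have := hlim 0
    simp only [W_zero_right] at this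
    exact (tendsto_nhds_unique this tendsto_const_nhds)
  have hrec : ∀ n, 2 * L (n + 1) = L n + L (n + 2) := by
    intro n
    have h1 : Tendsto (fun t => W (t + 1) (n + 1)) atTop (𝓝 (L (n + 1))) :=
      (hlim (n + 1)).comp (tendsto_add_atTop_nat 1)
    have h2 : Tendsto (fun t => (W t n + 2 * W t (n + 1) + W t (n + 2)) / 4) atTop
        (𝓝 ((L n + 2 * L (n + 1) + L (n + 2)) / 4)) :=
      (((hlim n).add ((hlim (n + 1)).const_mul 2)).add (hlim (n + 2))).div_const 4
    have h3 : (fun t => W (t + 1) (n + 1)) =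
        fun t => (W t n + 2 * W t (n + 1) + W t (n + 2)) / 4 := by
      funext t; simp only [W]
    rw [h3] at h1
    have := tendsto_nhds_unique h1 h2
    linarith
  have hlin : ∀ n : ℕ, L n = 1 - n * (1 - L 1) ∧ L (n + 1) = 1 - (n + 1) * (1 - L 1) := by
    intro n
    induction n with
    | zero => simp [hL0]
    | succ n ih =>
      refine ⟨by push_cast; exact ih.2, ?_⟩
      have := hrec n
      push_cast
      have e : L (n + 1 + 1) = 2 * L (n + 1) - L n := by linarith
      rw [e, ih.1, ih.2]
      ring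
  have hge : ∀ n, 0 ≤ L n := fun n => ge_of_tendsto' (hlim n) (fun t => W_nonneg t n)
  have hle : L 1 ≤ 1 := le_of_tendsto' (hlim 1) (fun t => W_le_one t 1)
  have h1 : L 1 = 1 := by
    by_contra hne
    have hlt : 0 < 1 - L 1 := by
      rcases lt_or_eq_of_le hle with h | h
      · linarith
      · exact absurd h hne
    obtain ⟨n, hn⟩ := exists_nat_gt (1 / (1 - L 1))
    have h2 := hge n
    rw [(hlin n).1] at h2
    rw [div_lt_iff₀ hlt] at hn
    linarith
  have := hlim 1
  rwa [h1] at this

/-! ### The automaton -/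

/-- The site `j` of `ℤ^1`. -/
def s (j : ℤ) : Site 1 := fun _ => j

/-- Coalescing random walks as a probabilistic cellular automaton on `{0,1,2}^ℤ`: the symbol `0` is
an empty site, `1` a particle that is going to stay, `2` a particle that is going to move one step
to the right. A site is occupied at the next time when its present symbol is `1` or the symbol of
its left neighbour is `2`, and then its new symbol is `1` or `2` with probability `1/2` each. -/
noncomputable def coalescing : PCA 1 (Fin 3) where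
  nbhd := {s 0, s (-1)}
  rule := fun u =>
    if u ⟨s 0, by simp⟩ = 1 ∨ u ⟨s (-1), by simp⟩ = 2 then
      PMF.uniformOfFinset ({1, 2} : Finset (Fin 3)) (Finset.insert_nonempty 1 {2})
    else PMF.pure 0

/-- Vacancy at the next time. -/
noncomputable def z (x : Config 1 (Fin 3)) (j : ℤ) : ℝ≥0∞ :=
  if x (s j) ≠ 1 ∧ x (s (j - 1)) ≠ 2 then 1 else 0

/-- The law of the new symbol. -/
noncomputable def nu (x : Config 1 (Fin 3)) (i : Site 1) : Measure (Fin 3) :=
  (coalescing.rule (coalescing.pattern x i)).toMeasure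

instance (x : Config 1 (Fin 3)) (i : Site 1) : IsProbabilityMeasure (nu x i) := by
  unfold nu; infer_instance

theorem step_eq (x : Config 1 (Fin 3)) : coalescing.step x = Measure.infinitePi (nu x) := rfl

theorem s_add (j k : ℤ) : s j + s k = s (j + k) := by
  funext i; simp [s]

theorem nu_occ (x : Config 1 (Fin 3)) (j : ℤ) (h : x (s j) = 1 ∨ x (s (j - 1)) = 2) :
    nu x (s j) = (PMF.uniformOfFinset ({1, 2} : Finset (Fin 3)) (Finset.insert_nonempty 1 {2})).toMeasure := by
  have : coalescing.rule (coalescing.pattern x (s j)) =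
      PMF.uniformOfFinset ({1, 2} : Finset (Fin 3)) (Finset.insert_nonempty 1 {2}) := by
    unfold coalescing PCA.pattern
    simp only [s_add, add_zero]
    rw [if_pos]
    exact h
  unfold nu
  rw [this]

theorem nu_vac (x : Config 1 (Fin 3)) (j : ℤ) (h : ¬ (x (s j) = 1 ∨ x (s (j - 1)) = 2)) :
    nu x (s j) = Measure.dirac 0 := by
  have : coalescing.rule (coalescing.pattern x (s j)) = PMF.pure 0 := by
    unfold coalescing PCA.pattern
    simp only [s_add, add_zero]
    rw [if_neg]
    exact h
  unfold nu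
  rw [this, PMF.toMeasure_pure]

theorem unif_apply (t : Finset (Fin 3)) :
    (PMF.uniformOfFinset ({1, 2} : Finset (Fin 3)) (Finset.insert_nonempty 1 {2})).toMeasure t =
      ∑ y ∈ t, if y ∈ ({1, 2} : Finset (Fin 3)) then (2 : ℝ≥0∞)⁻¹ else 0 := by
  rw [PMF.toMeasure_apply_finset]
  apply Finset.sum_congr rfl
  intro y _
  rw [PMF.uniformOfFinset_apply]
  simp

theorem half_aux : (2 : ℝ≥0∞)⁻¹ = (1 + 0) / 2 := by simp

theorem nu_zero (x : Config 1 (Fin 3)) (j : ℤ) :
    nu x (s j) (({0} : Finset (Fin 3)) : Set (Fin 3)) = z x j := by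
  unfold z
  by_cases h : x (s j) = 1 ∨ x (s (j - 1)) = 2
  · rw [nu_occ x j h, unif_apply, if_neg (by tauto)]
    simp
  · rw [nu_vac x j h, if_pos (by tauto)]
    simp

theorem nu_ne_one (x : Config 1 (Fin 3)) (j : ℤ) :
    nu x (s j) (({0, 2} : Finset (Fin 3)) : Set (Fin 3)) = (1 + z x j) / 2 := by
  unfold z
  by_cases h : x (s j) = 1 ∨ x (s (j - 1)) = 2
  · rw [nu_occ x j h, unif_apply, if_neg (by tauto)]
    simp
  · rw [nu_vac x j h, if_pos (by tauto)]
    rw [one_add_one_eq_two, ENNReal.div_self (by simp) (by simp)]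
    simp

theorem nu_ne_two (x : Config 1 (Fin 3)) (j : ℤ) :
    nu x (s j) (({0, 1} : Finset (Fin 3)) : Set (Fin 3)) = (1 + z x j) / 2 := by
  unfold z
  by_cases h : x (s j) = 1 ∨ x (s (j - 1)) = 2
  · rw [nu_occ x j h, unif_apply, if_neg (by tauto)]
    simp
  · rw [nu_vac x j h, if_pos (by tauto)]
    rw [one_add_one_eq_two, ENNReal.div_self (by simp) (by simp)]
    simp

/-- The interval `[a, a+n)` is vacant at the next time. -/
noncomputable def G (a : ℤ) (n : ℕ) (x : Config 1 (Fin 3)) : ℝ≥0∞ :=
  ∏ j ∈ Finset.Ico a (a + n), z x j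

/-- The box used to compute the transition. -/
def box (a b : ℤ) (i : Site 1) : Finset (Fin 3) :=
  if i = s (a - 1) then {0, 1} else if i = s b then {0, 2} else {0}

theorem s_inj : Function.Injective s := by
  intro i j h
  exact congrFun h 0

theorem G_eq_box (a : ℤ) (n : ℕ) (y : Config 1 (Fin 3)) :
    G a (n + 1) y = (Set.pi (((insert (a - 1) (insert (a + n) (Finset.Ico a (a + n)))).image s :
      Finset (Site 1)) : Set (Site 1)) (fun i => (box a (a + n) i : Set (Fin 3)))).indicator
        (fun _ => (1 : ℝ≥0∞)) y := by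
  unfold G z
  rw [Finset.prod_ite_zero]
  simp only [Finset.prod_const_one]
  have key : (∀ j ∈ Finset.Ico a (a + ((n + 1 : ℕ) : ℤ)), y (s j) ≠ 1 ∧ y (s (j - 1)) ≠ 2) ↔
      y ∈ (Set.pi (((insert (a - 1) (insert (a + n) (Finset.Ico a (a + n)))).image s :
      Finset (Site 1)) : Set (Site 1)) (fun i => (box a (a + n) i : Set (Fin 3)))) := by
    have three : ∀ w : Fin 3, w ≠ 1 → w ≠ 2 → w = 0 := by decide
    have no2 : ∀ w : Fin 3, w ≠ 2 → w ∈ ({0, 1} : Finset (Fin 3)) := by decide
    have no1 : ∀ w : Fin 3, w ≠ 1 → w ∈ ({0, 2} : Finset (Fin 3)) := by decide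
    have no2' : ∀ w : Fin 3, w ∈ ({0, 1} : Finset (Fin 3)) → w ≠ 2 := by decide
    have no1' : ∀ w : Fin 3, w ∈ ({0, 2} : Finset (Fin 3)) → w ≠ 1 := by decide
    constructor
    · intro h i hi
      obtain ⟨j, hj, rfl⟩ := Finset.mem_image.1 (Finset.mem_coe.1 hi)
      rw [Finset.mem_coe]
      unfold box
      simp only [s_inj.eq_iff]
      rw [Finset.mem_insert, Finset.mem_insert, Finset.mem_Ico] at hj
      split_ifs with h1 h2
      · apply no2
        have := (h a (by rw [Finset.mem_Ico]; push_cast; omega)).2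
        rwa [← h1] at this
      · apply no1
        have := (h (a + n) (by rw [Finset.mem_Ico]; push_cast; omega)).1
        rwa [← h2] at this
      · rw [Finset.mem_singleton]
        apply three
        · exact (h j (by rw [Finset.mem_Ico]; push_cast; omega)).1
        · have := (h (j + 1) (by rw [Finset.mem_Ico]; push_cast; omega)).2
          rwa [add_sub_cancel_right] at this
    · intro h j hj
      rw [Finset.mem_Ico] at hj
      push_cast at hj
      have val : ∀ i : ℤ, i = a - 1 ∨ i = a + n ∨ (a ≤ i ∧ i < a + n) →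
          y (s i) ∈ box a (a + n) (s i) := by
        intro i hi
        have := h (s i) (by
          rw [Finset.mem_coe]
          exact Finset.mem_image_of_mem s (by
            rw [Finset.mem_insert, Finset.mem_insert, Finset.mem_Ico]; exact hi))
        exact Finset.mem_coe.1 this
      unfold box at val
      simp only [s_inj.eq_iff] at val
      constructor
      · by_cases e : j = a + n
        · have := val j (by right; left; exact e)
          rw [if_neg (by omega), if_pos e] at this
          exact no1' _ this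
        · have := val j (by right; right; omega)
          rw [if_neg (by omega), if_neg e, Finset.mem_singleton] at this
          rw [this]; decide
      · by_cases e : j = a
        · have := val (j - 1) (by left; omega)
          rw [if_pos (by omega)] at this
          exact no2' _ this
        · have := val (j - 1) (by right; right; omega)
          rw [if_neg (by omega), if_neg (by omega), Finset.mem_singleton] at this
          rw [this]; decide
  by_cases hy : y ∈ (Set.pi (((insert (a - 1) (insert (a + n) (Finset.Ico a (a + n)))).image s :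
      Finset (Site 1)) : Set (Site 1)) (fun i => (box a (a + n) i : Set (Fin 3))))
  · rw [if_pos (key.2 hy), Set.indicator_of_mem hy]
  · rw [if_neg (fun h => hy (key.1 h)), Set.indicator_of_notMem hy]

theorem Ico_succ_right (a : ℤ) (n : ℕ) (f : ℤ → ℝ≥0∞) :
    ∏ j ∈ Finset.Ico a (a + ((n + 1 : ℕ) : ℤ)), f j = (∏ j ∈ Finset.Ico a (a + n), f j) * f (a + n) := by
  have : Finset.Ico a (a + ((n + 1 : ℕ) : ℤ)) = insert (a + n) (Finset.Ico a (a + n)) := by
    ext j
    rw [Finset.mem_Ico, Finset.mem_insert, Finset.mem_Ico]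
    push_cast
    omega
  rw [this, Finset.prod_insert (by simp), mul_comm]

theorem Ico_succ_left (a : ℤ) (n : ℕ) (f : ℤ → ℝ≥0∞) :
    ∏ j ∈ Finset.Ico (a - 1) (a - 1 + ((n + 1 : ℕ) : ℤ)), f j =
      f (a - 1) * (∏ j ∈ Finset.Ico a (a + n), f j) := by
  have : Finset.Ico (a - 1) (a - 1 + ((n + 1 : ℕ) : ℤ)) = insert (a - 1) (Finset.Ico a (a + n)) := by
    ext j
    rw [Finset.mem_Ico, Finset.mem_insert, Finset.mem_Ico]
    push_cast
    omega
  rw [this, Finset.prod_insert (by simp)]

/-- The interval duality. -/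
theorem op_G (a : ℤ) (n : ℕ) (x : Config 1 (Fin 3)) :
    coalescing.op (G a (n + 1)) x =
      (G a n x + G a (n + 1) x + G (a - 1) (n + 1) x + G (a - 1) (n + 2) x) / 4 := by
  have h1 : coalescing.op (G a (n + 1)) x = Measure.infinitePi (nu x)
      (Set.pi (((insert (a - 1) (insert (a + n) (Finset.Ico a (a + n)))).image s :
      Finset (Site 1)) : Set (Site 1)) (fun i => (box a (a + n) i : Set (Fin 3)))) := by
    unfold PCA.op
    simp only [G_eq_box]
    rw [lintegral_indicator, step_eq]
    · simp
    · exact MeasurableSet.pi (Finset.countable_toSet _) (fun i _ => Finset.measurableSet _)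
  rw [h1, Measure.infinitePi_pi _ (fun i _ => Finset.measurableSet _),
    Finset.prod_image (fun i _ j _ h => s_inj h), Finset.prod_insert (by
      rw [Finset.mem_insert, Finset.mem_Ico]; omega), Finset.prod_insert (by simp)]
  have e1 : nu x (s (a - 1)) (box a (a + n) (s (a - 1)) : Set (Fin 3)) = (1 + z x (a - 1)) / 2 := by
    have : box a (a + n) (s (a - 1)) = {0, 1} := by
      unfold box; rw [if_pos rfl]
    rw [this]; exact nu_ne_two x (a - 1)
  have e2 : nu x (s (a + n)) (box a (a + n) (s (a + n)) : Set (Fin 3)) = (1 + z x (a + n)) / 2 := by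
    have : box a (a + n) (s (a + n)) = {0, 2} := by
      unfold box; rw [if_neg (by rw [s_inj.eq_iff]; omega), if_pos rfl]
    rw [this]; exact nu_ne_one x (a + n)
  have e3 : ∏ j ∈ Finset.Ico a (a + n), nu x (s j) (box a (a + n) (s j) : Set (Fin 3)) =
      G a n x := by
    unfold G
    apply Finset.prod_congr rfl
    intro j hj
    rw [Finset.mem_Ico] at hj
    have : box a (a + n) (s j) = {0} := by
      unfold box
      rw [if_neg (by rw [s_inj.eq_iff]; omega), if_neg (by rw [s_inj.eq_iff]; omega)]
    rw [this]; exact nu_zero x j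
  rw [e1, e2, e3]
  have g1 : G a (n + 1) x = G a n x * z x (a + n) := by
    unfold G; exact Ico_succ_right a n _
  have g2 : G (a - 1) (n + 1) x = z x (a - 1) * G a n x := by
    unfold G; exact Ico_succ_left a n _
  have g3 : G (a - 1) (n + 2) x = z x (a - 1) * (G a n x * z x (a + n)) := by
    have := Ico_succ_left a (n + 1) (z x)
    unfold G
    rw [show ((n + 2 : ℕ) : ℤ) = ((n + 1 + 1 : ℕ) : ℤ) by push_cast; ring]
    rw [this, Ico_succ_right]
  rw [g1, g2, g3]
  rw [ENNReal.div_eq_inv_mul, ENNReal.div_eq_inv_mul, ENNReal.div_eq_inv_mul]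
  have : (4 : ℝ≥0∞)⁻¹ = 2⁻¹ * 2⁻¹ := by
    rw [← ENNReal.mul_inv (by simp) (by simp)]; norm_num
  rw [this]
  ring

/-! ### Dependence, iteration -/

theorem G_dependsOn (a : ℤ) (n : ℕ) : DependsOn (G a n)
    (((Finset.Icc (a - 1) (a + n)).image s : Finset (Site 1)) : Set (Site 1)) := by
  intro x y hxy
  unfold G
  apply Finset.prod_congr rfl
  intro j hj
  rw [Finset.mem_Ico] at hj
  have h : ∀ i : ℤ, a - 1 ≤ i → i ≤ a + n → x (s i) = y (s i) := by
    intro i h1 h2
    apply hxy
    exact Finset.mem_coe.2 (Finset.mem_image_of_mem s (Finset.mem_Icc.2 ⟨h1, h2⟩))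
  unfold z
  rw [h j (by omega) (by omega), h (j - 1) (by omega) (by omega)]

theorem op_iterate_add {f g : Config 1 (Fin 3) → ℝ≥0∞} {A B : Finset (Site 1)}
    (hf : DependsOn f A) (hg : DependsOn g B) (t : ℕ) (x : Config 1 (Fin 3)) :
    coalescing.op^[t] (fun y => f y + g y) x =
      coalescing.op^[t] f x + coalescing.op^[t] g x := by
  induction t generalizing f g A B with
  | zero => rfl
  | succ t ih =>
    have e : coalescing.op (fun y => f y + g y) =
        fun y => coalescing.op f y + coalescing.op g y := by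
      funext y
      exact lintegral_add_left (PCA.measurable_of_dependsOn hf) _
    simp only [Function.iterate_succ, Function.comp_apply]
    rw [e]
    exact ih (coalescing.op_dependsOn hf) (coalescing.op_dependsOn hg)

theorem op_iterate_div {f : Config 1 (Fin 3) → ℝ≥0∞} {A : Finset (Site 1)}
    (hf : DependsOn f A) (t : ℕ) (x : Config 1 (Fin 3)) :
    coalescing.op^[t] (fun y => f y / 4) x = coalescing.op^[t] f x / 4 := by
  induction t generalizing f A with
  | zero => rfl
  | succ t ih =>
    have e : coalescing.op (fun y => f y / 4) = fun y => coalescing.op f y / 4 := by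
      funext y
      unfold PCA.op
      simp only [div_eq_mul_inv]
      exact lintegral_mul_const _ (PCA.measurable_of_dependsOn hf)
    simp only [Function.iterate_succ, Function.comp_apply]
    rw [e]
    exact ih (coalescing.op_dependsOn hf)

theorem dependsOn_add {f g : Config 1 (Fin 3) → ℝ≥0∞} {A B : Finset (Site 1)}
    (hf : DependsOn f A) (hg : DependsOn g B) :
    DependsOn (fun y => f y + g y) ((A ∪ B : Finset (Site 1)) : Set (Site 1)) := by
  intro x y hxy
  have e1 : f x = f y := hf (fun i hi => hxy i (by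
    rw [Finset.coe_union]; exact Or.inl hi))
  have e2 : g x = g y := hg (fun i hi => hxy i (by
    rw [Finset.coe_union]; exact Or.inr hi))
  simp only [e1, e2]

theorem op_iterate_G_succ (a : ℤ) (n t : ℕ) (x : Config 1 (Fin 3)) :
    coalescing.op^[t + 1] (G a (n + 1)) x =
      (coalescing.op^[t] (G a n) x + coalescing.op^[t] (G a (n + 1)) x +
        coalescing.op^[t] (G (a - 1) (n + 1)) x + coalescing.op^[t] (G (a - 1) (n + 2)) x) / 4 := by
  rw [Function.iterate_succ_apply]
  have e : coalescing.op (G a (n + 1)) = fun x =>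
      (G a n x + G a (n + 1) x + G (a - 1) (n + 1) x + G (a - 1) (n + 2) x) / 4 := by
    funext y
    exact op_G a n y
  rw [e]
  have d1 := dependsOn_add (G_dependsOn a n) (G_dependsOn a (n + 1))
  have d2 := dependsOn_add d1 (G_dependsOn (a - 1) (n + 1))
  have d3 := dependsOn_add d2 (G_dependsOn (a - 1) (n + 2))
  rw [op_iterate_div d3, op_iterate_add d2 (G_dependsOn (a - 1) (n + 2)),
    op_iterate_add d1 (G_dependsOn (a - 1) (n + 1)),
    op_iterate_add (G_dependsOn a n) (G_dependsOn a (n + 1))]

theorem G_zero (a : ℤ) (x : Config 1 (Fin 3)) : G a 0 x = 1 := by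
  unfold G; simp

theorem op_iterate_G_zero (a : ℤ) (t : ℕ) (x : Config 1 (Fin 3)) :
    coalescing.op^[t] (G a 0) x = 1 := by
  have e0 : G a 0 = fun _ => 1 := by funext y; exact G_zero a y
  rw [e0]
  induction t with
  | zero => rfl
  | succ t ih =>
    rw [Function.iterate_succ_apply]
    have : coalescing.op (fun _ => (1 : ℝ≥0∞)) = fun _ => 1 := by
      funext y; simp [PCA.op]
    rw [this, ih]

theorem ofReal_W_succ (t n : ℕ) : ENNReal.ofReal (W (t + 1) (n + 1)) =
    (ENNReal.ofReal (W t n) + ENNReal.ofReal (W t (n + 1)) + ENNReal.ofReal (W t (n + 1)) +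
      ENNReal.ofReal (W t (n + 2))) / 4 := by
  have : W (t + 1) (n + 1) = (W t n + W t (n + 1) + W t (n + 1) + W t (n + 2)) / 4 := by
    simp only [W]; ring
  rw [this, ENNReal.ofReal_div_of_pos (by norm_num), ENNReal.ofReal_add, ENNReal.ofReal_add,
    ENNReal.ofReal_add]
  · norm_num
  all_goals (try exact W_nonneg _ _)
  all_goals (try linarith [W_nonneg t n, W_nonneg t (n + 1), W_nonneg t (n + 2)])

theorem le_op_iterate_G (t : ℕ) : ∀ (a : ℤ) (n : ℕ) (x : Config 1 (Fin 3)),
    ENNReal.ofReal (W t n) ≤ coalescing.op^[t] (G a n) x := by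
  induction t with
  | zero =>
    intro a n x
    cases n with
    | zero => simp [W, G_zero]
    | succ n => simp [W]
  | succ t ih =>
    intro a n x
    cases n with
    | zero => rw [op_iterate_G_zero]; simp [W]
    | succ n =>
      rw [op_iterate_G_succ, ofReal_W_succ]
      gcongr
      · exact ih _ _ _
      · exact ih _ _ _
      · exact ih _ _ _
      · exact ih _ _ _

/-- The configuration full of particles. -/
def ones : Config 1 (Fin 3) := fun _ => 1

theorem op_iterate_G_ones (t : ℕ) : ∀ (a : ℤ) (n : ℕ),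
    coalescing.op^[t] (G a n) ones = ENNReal.ofReal (W t n) := by
  induction t with
  | zero =>
    intro a n
    cases n with
    | zero => simp [W, G_zero]
    | succ n =>
      have : G a (n + 1) ones = 0 := by
        unfold G
        apply Finset.prod_eq_zero (i := a)
        · rw [Finset.mem_Ico]; push_cast; omega
        · simp [z, ones]
      simp [W, this]
  | succ t ih =>
    intro a n
    cases n with
    | zero => rw [op_iterate_G_zero]; simp [W]
    | succ n =>
      rw [op_iterate_G_succ, ofReal_W_succ, ih, ih, ih, ih]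

/-! ### One-site probabilities -/

/-- The site `j` is empty. -/
def emptyAt (i : Site 1) : Set (Config 1 (Fin 3)) := {x | x i = 0}

theorem emptyAt_dependsOn (i : Site 1) :
    DependsOn ((emptyAt i).indicator (fun _ => (1 : ℝ≥0∞))) (({i} : Finset (Site 1)) :
      Set (Site 1)) := by
  intro x y hxy
  have : x i = y i := hxy i (by simp)
  by_cases h : y i = 0
  · have hx : x ∈ emptyAt i := by unfold emptyAt; rw [Set.mem_ofPred_eq, this]; exact h
    have hy : y ∈ emptyAt i := h
    rw [Set.indicator_of_mem hx, Set.indicator_of_mem hy]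
  · have hx : x ∉ emptyAt i := by unfold emptyAt; rw [Set.mem_ofPred_eq, this]; exact h
    have hy : y ∉ emptyAt i := h
    rw [Set.indicator_of_notMem hx, Set.indicator_of_notMem hy]

theorem measurableSet_emptyAt (i : Site 1) : MeasurableSet (emptyAt i) := by
  apply PCA.measurableSet_of_dependsOn (F := {i})
  intro x y hxy
  have : x i = y i := hxy i (by simp)
  show (x i = 0) = (y i = 0)
  rw [this]

theorem s_apply_zero (i : Site 1) : s (i 0) = i := by
  funext j
  have : j = 0 := Subsingleton.elim _ _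
  rw [this]; rfl

theorem op_emptyAt (i : Site 1) :
    coalescing.op ((emptyAt i).indicator (fun _ => (1 : ℝ≥0∞))) = G (i 0) 1 := by
  funext x
  unfold PCA.op
  rw [lintegral_indicator (measurableSet_emptyAt i), step_eq]
  have h1 : emptyAt i = Set.pi (({i} : Finset (Site 1)) : Set (Site 1))
      (fun _ => (({0} : Finset (Fin 3)) : Set (Fin 3))) := by
    ext y
    simp [emptyAt]
  have h2 : Measure.infinitePi (nu x) (emptyAt i) = z x (i 0) := by
    rw [h1, Measure.infinitePi_pi _ (fun i _ => Finset.measurableSet _), Finset.prod_singleton]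
    have := nu_zero x (i 0)
    rwa [s_apply_zero] at this
  have h3 : G (i 0) 1 x = z x (i 0) := by
    unfold G
    have : Finset.Ico (i 0) (i 0 + ((1 : ℕ) : ℤ)) = {i 0} := by
      ext j; rw [Finset.mem_Ico, Finset.mem_singleton]; push_cast; omega
    rw [this, Finset.prod_singleton]
  rw [h3]
  simpa using h2

theorem op_iterate_emptyAt (i : Site 1) (t : ℕ) :
    coalescing.op^[t + 1] ((emptyAt i).indicator (fun _ => (1 : ℝ≥0∞))) =
      coalescing.op^[t] (G (i 0) 1) := by
  rw [Function.iterate_succ_apply, op_emptyAt]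

theorem measure_emptyAt (ν : Measure (Config 1 (Fin 3))) (i : Site 1) :
    ν (emptyAt i) = ∫⁻ x, (emptyAt i).indicator (fun _ => (1 : ℝ≥0∞)) x ∂ν := by
  rw [lintegral_indicator (measurableSet_emptyAt i), lintegral_const, one_mul,
    Measure.restrict_apply MeasurableSet.univ, Set.univ_inter]

theorem empty_prob (μ : Measure (Config 1 (Fin 3))) [IsProbabilityMeasure μ] (i : Site 1) (t : ℕ) :
    ENNReal.ofReal (W t 1) ≤ (coalescing.evolve^[t + 1] μ) (emptyAt i) := by
  have e2 := coalescing.lintegral_iterate μ (t + 1) (emptyAt_dependsOn i)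
  rw [op_iterate_emptyAt] at e2
  have e1 := measure_emptyAt (coalescing.evolve^[t + 1] μ) i
  have e3 : ENNReal.ofReal (W t 1) ≤ ∫⁻ x, coalescing.op^[t] (G (i 0) 1) x ∂μ := by
    calc ENNReal.ofReal (W t 1) = ∫⁻ _, ENNReal.ofReal (W t 1) ∂μ := by
          rw [lintegral_const, measure_univ, mul_one]
      _ ≤ _ := lintegral_mono (fun x => le_op_iterate_G t _ _ x)
  exact e3.trans (e2.symm.trans e1.symm).le

theorem empty_prob_ones (i : Site 1) (t : ℕ) :
    (coalescing.evolve^[t + 1] (Measure.dirac ones)) (emptyAt i) = ENNReal.ofReal (W t 1) := by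
  have e2 := coalescing.iterate_dirac ones (t + 1) (emptyAt_dependsOn i)
  rw [op_iterate_emptyAt] at e2
  have e1 := measure_emptyAt (coalescing.evolve^[t + 1] (Measure.dirac ones)) i
  exact (e1.trans e2).trans (op_iterate_G_ones t (i 0) 1)

/-! ### Ergodicity -/

/-- The empty configuration. -/
def zeroC : Config 1 (Fin 3) := fun _ => 0

theorem evolve_dirac_zero : coalescing.evolve (Measure.dirac zeroC) = Measure.dirac zeroC := by
  unfold PCA.evolve
  rw [Measure.dirac_bind coalescing.measurable_step, step_eq]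
  have : nu zeroC = fun _ => Measure.dirac 0 := by
    funext i
    have := nu_vac zeroC (i 0) (by simp [zeroC])
    rwa [s_apply_zero] at this
  rw [this]
  exact Measure.infinitePi_dirac zeroC

/-- The probability that `i` is occupied. -/
noncomputable def occ (ν : Measure (Config 1 (Fin 3))) (i : Site 1) : ℝ :=
  (ν (emptyAt i)ᶜ).toReal

theorem occ_nonneg (ν : Measure (Config 1 (Fin 3))) (i : Site 1) : 0 ≤ occ ν i :=
  ENNReal.toReal_nonneg

theorem occ_eq (ν : Measure (Config 1 (Fin 3))) [IsProbabilityMeasure ν] (i : Site 1) :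
    occ ν i = 1 - (ν (emptyAt i)).toReal := by
  unfold occ
  rw [prob_compl_eq_one_sub (measurableSet_emptyAt i),
    ENNReal.toReal_sub_of_le prob_le_one ENNReal.one_ne_top]
  simp

theorem occ_iterate_le (μ : Measure (Config 1 (Fin 3))) [IsProbabilityMeasure μ] (i : Site 1)
    (t : ℕ) : occ (coalescing.evolve^[t + 1] μ) i ≤ 1 - W t 1 := by
  have := coalescing.isProbabilityMeasure_iterate μ (t + 1)
  rw [occ_eq]
  have h := empty_prob μ i t
  have h2 := ENNReal.toReal_mono (measure_ne_top _ _) h
  rw [ENNReal.toReal_ofReal (W_nonneg t 1)] at h2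
  linarith

theorem integral_close (ν : Measure (Config 1 (Fin 3))) [IsProbabilityMeasure ν]
    (f : Config 1 (Fin 3) → ℝ) (hf : Continuous f) (M ε : ℝ) (hM : ∀ x, |f x| ≤ M)
    (I : Finset (Site 1)) (hI : ∀ x : Config 1 (Fin 3), (∀ i ∈ I, x i = 0) → |f x - f zeroC| ≤ ε)
    (hε : 0 ≤ ε) : |(∫ x, f x ∂ν) - f zeroC| ≤ ε + 2 * M * ∑ i ∈ I, occ ν i := by
  have hM0 : 0 ≤ M := (abs_nonneg _).trans (hM zeroC)
  have hint : Integrable f ν := by
    apply Integrable.of_bound hf.aestronglyMeasurable M
    filter_upwards with x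
    exact hM x
  have e1 : (∫ x, f x ∂ν) - f zeroC = ∫ x, (f x - f zeroC) ∂ν := by
    rw [integral_sub hint (integrable_const _)]; simp
  rw [e1]
  have hind : ∀ i, Integrable (fun x => ((emptyAt i)ᶜ).indicator (fun _ => (1 : ℝ)) x) ν := by
    intro i
    exact (integrable_const (1 : ℝ)).indicator (measurableSet_emptyAt i).compl
  have hsum : Integrable (fun x => ∑ i ∈ I, ((emptyAt i)ᶜ).indicator (fun _ => (1 : ℝ)) x) ν :=
    integrable_finsetSum _ (fun i _ => hind i)
  calc |∫ x, (f x - f zeroC) ∂ν| ≤ ∫ x, |f x - f zeroC| ∂ν := abs_integral_le_integral_abs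
    _ ≤ ∫ x, (ε + 2 * M * ∑ i ∈ I, ((emptyAt i)ᶜ).indicator (fun _ => (1 : ℝ)) x) ∂ν := by
        apply integral_mono (hint.sub (integrable_const _)).abs
          ((integrable_const _).add (hsum.const_mul _))
        intro x
        show |f x - f zeroC| ≤ ε + 2 * M * ∑ i ∈ I, ((emptyAt i)ᶜ).indicator (fun _ => (1 : ℝ)) x
        by_cases hx : ∀ i ∈ I, x i = 0
        · have h1 := hI x hx
          have h2 : 0 ≤ ∑ i ∈ I, ((emptyAt i)ᶜ).indicator (fun _ => (1 : ℝ)) x :=
            Finset.sum_nonneg (fun i _ => Set.indicator_nonneg (fun _ _ => zero_le_one) x)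
          have h3 : 0 ≤ 2 * M * ∑ i ∈ I, ((emptyAt i)ᶜ).indicator (fun _ => (1 : ℝ)) x := by
            positivity
          linarith
        · push Not at hx
          obtain ⟨i, hi, hxi⟩ := hx
          have h2 : 1 ≤ ∑ i ∈ I, ((emptyAt i)ᶜ).indicator (fun _ => (1 : ℝ)) x := by
            have h4 : ((emptyAt i)ᶜ).indicator (fun _ => (1 : ℝ)) x = 1 :=
              Set.indicator_of_mem (show x ∈ (emptyAt i)ᶜ from hxi) _
            have h6 := Finset.single_le_sum
              (f := fun i => ((emptyAt i)ᶜ).indicator (fun _ => (1 : ℝ)) x)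
              (fun i _ => Set.indicator_nonneg (fun _ _ => zero_le_one) x) hi
            linarith
          have h5 : |f x - f zeroC| ≤ 2 * M := by
            calc |f x - f zeroC| ≤ |f x| + |f zeroC| := abs_sub _ _
              _ ≤ 2 * M := by linarith [hM x, hM zeroC]
          nlinarith
    _ = ε + 2 * M * ∑ i ∈ I, occ ν i := by
        rw [integral_add (integrable_const _) (hsum.const_mul _), integral_const_mul,
          integral_finsetSum _ (fun i _ => hind i)]
        have : ∀ i, ∫ x, ((emptyAt i)ᶜ).indicator (fun _ => (1 : ℝ)) x ∂ν = occ ν i := by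
          intro i
          rw [integral_indicator (measurableSet_emptyAt i).compl]
          simp [occ, Measure.real]
        simp [this]

theorem one_sub_W_tendsto : Tendsto (fun t => 1 - W t 1) atTop (𝓝 0) := by
  have := W_tendsto.const_sub 1
  simpa using this

theorem weak_convergence (μ : Measure (Config 1 (Fin 3))) [IsProbabilityMeasure μ]
    (f : Config 1 (Fin 3) → ℝ) (hf : Continuous f) :
    Tendsto (fun t : ℕ => ∫ x, f x ∂(coalescing.evolve^[t] μ)) atTop (𝓝 (f zeroC)) := by
  obtain ⟨M, hM⟩ := isCompact_univ.exists_bound_of_continuousOn (hf.continuousOn (s := Set.univ))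
  rw [Metric.tendsto_atTop]
  intro ε hε
  have hopen : IsOpen {x : Config 1 (Fin 3) | |f x - f zeroC| < ε / 2} :=
    isOpen_lt (hf.sub continuous_const).abs continuous_const
  obtain ⟨I, u, hu, hsub⟩ := isOpen_pi_iff.1 hopen zeroC (by
    show |f zeroC - f zeroC| < ε / 2
    rw [sub_self, abs_zero]; linarith)
  have hI : ∀ x : Config 1 (Fin 3), (∀ i ∈ I, x i = 0) → |f x - f zeroC| ≤ ε / 2 := by
    intro x hx
    have : x ∈ (I : Set (Site 1)).pi u := by
      intro i hi
      rw [hx i hi]
      exact (hu i hi).2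
    exact (hsub this).le
  have hM' : ∀ x, |f x| ≤ M := fun x => hM x (Set.mem_univ x)
  have hM0 : 0 ≤ M := (abs_nonneg _).trans (hM' zeroC)
  have hlim : Tendsto (fun t => 2 * M * (I.card * (1 - W t 1))) atTop (𝓝 (2 * M * (I.card * 0))) :=
    (one_sub_W_tendsto.const_mul _).const_mul _
  rw [mul_zero, mul_zero] at hlim
  obtain ⟨T, hT⟩ := (Metric.tendsto_atTop.1 hlim) (ε / 2) (by linarith)
  refine ⟨T + 1, fun t ht => ?_⟩
  obtain ⟨t', rfl⟩ : ∃ t', t = t' + 1 := ⟨t - 1, by omega⟩
  have hp := coalescing.isProbabilityMeasure_iterate μ (t' + 1)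
  have h1 := integral_close (coalescing.evolve^[t' + 1] μ) f hf M (ε / 2) hM' I hI (by linarith)
  have h2 : ∑ i ∈ I, occ (coalescing.evolve^[t' + 1] μ) i ≤ I.card * (1 - W t' 1) := by
    calc ∑ i ∈ I, occ (coalescing.evolve^[t' + 1] μ) i ≤ ∑ _i ∈ I, (1 - W t' 1) :=
          Finset.sum_le_sum (fun i _ => occ_iterate_le μ i t')
      _ = I.card * (1 - W t' 1) := by rw [Finset.sum_const, nsmul_eq_mul]
  have h3 := hT t' (by omega)
  rw [Real.dist_eq, sub_zero] at h3
  have h4 := (le_abs_self _).trans_lt h3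
  have h5 : 2 * M * ∑ i ∈ I, occ (coalescing.evolve^[t' + 1] μ) i ≤
      2 * M * (I.card * (1 - W t' 1)) := mul_le_mul_of_nonneg_left h2 (by linarith)
  rw [Real.dist_eq]
  linarith

theorem ergodic : IsErgodic coalescing (Measure.dirac zeroC) where
  prob := inferInstance
  invariant := evolve_dirac_zero
  unique := by
    intro ν hν hinv
    have hit : ∀ t : ℕ, coalescing.evolve^[t] ν = ν := by
      intro t
      induction t with
      | zero => rfl
      | succ t ih => rw [Function.iterate_succ_apply', ih, hinv]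
    apply ext_of_forall_integral_eq_of_IsFiniteMeasure
    intro f
    have h := weak_convergence ν f f.continuous
    simp only [hit] at h
    rw [tendsto_nhds_unique tendsto_const_nhds h, integral_dirac]
  converges := by
    intro μ hμ f hf
    rw [integral_dirac]
    exact weak_convergence μ f hf

theorem uniformlyErgodic : UniformlyErgodic coalescing (Measure.dirac zeroC) := by
  refine ⟨ergodic, fun A u ε hε => ?_⟩
  have hlim : Tendsto (fun t => (A.card : ℝ) * (1 - W t 1)) atTop (𝓝 ((A.card : ℝ) * 0)) :=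
    one_sub_W_tendsto.const_mul _
  rw [mul_zero] at hlim
  obtain ⟨T, hT⟩ := (Metric.tendsto_atTop.1 hlim) ε hε
  refine ⟨T + 1, fun t ht μ hμ => ?_⟩
  obtain ⟨t', rfl⟩ : ∃ t', t = t' + 1 := ⟨t - 1, by omega⟩
  have h3 := hT t' (by omega)
  rw [Real.dist_eq, sub_zero] at h3
  have h4 := ((le_abs_self _).trans_lt h3).le
  refine le_trans ?_ h4
  have hp := coalescing.isProbabilityMeasure_iterate μ (t' + 1)
  set ν := coalescing.evolve^[t' + 1] μ with hν
  have hW : 0 ≤ 1 - W t' 1 := by linarith [W_le_one t' 1]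
  have hocc : ∀ i, (ν (emptyAt i)ᶜ).toReal ≤ 1 - W t' 1 := fun i => occ_iterate_le μ i t'
  have hmc := measurableSet_cyl (d := 1) A u
  unfold gap
  rw [← hν]
  by_cases hu : ∀ a : A, u a = 0
  · have h0 : zeroC ∈ cyl A u := fun a => (hu a).symm
    have e1 : (Measure.dirac zeroC : Measure (Config 1 (Fin 3))) (cyl A u) = 1 := by
      rw [Measure.dirac_apply' _ hmc, Set.indicator_of_mem h0]; rfl
    have e2 : (ν (cyl A u)).toReal = 1 - (ν (cyl A u)ᶜ).toReal := by
      rw [prob_compl_eq_one_sub hmc, ENNReal.toReal_sub_of_le prob_le_one ENNReal.one_ne_top]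
      simp
    rw [e1, e2]
    have e3 : 1 - (ν (cyl A u)ᶜ).toReal - (1 : ℝ≥0∞).toReal = -(ν (cyl A u)ᶜ).toReal := by
      simp
    rw [e3, abs_neg, abs_of_nonneg ENNReal.toReal_nonneg]
    have hsub : (cyl A u)ᶜ ⊆ ⋃ i ∈ A, (emptyAt i)ᶜ := by
      intro x hx
      by_contra hcon
      apply hx
      intro a
      rw [hu a]
      by_contra hne
      exact hcon (Set.mem_biUnion a.2 hne)
    calc (ν (cyl A u)ᶜ).toReal ≤ (∑ i ∈ A, ν (emptyAt i)ᶜ).toReal := by
          apply ENNReal.toReal_mono
          · exact (ENNReal.sum_lt_top.2 (fun i _ => measure_lt_top _ _)).ne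
          · exact (measure_mono hsub).trans (measure_biUnion_finset_le A _)
      _ = ∑ i ∈ A, (ν (emptyAt i)ᶜ).toReal :=
          ENNReal.toReal_sum (fun i _ => measure_ne_top _ _)
      _ ≤ ∑ _i ∈ A, (1 - W t' 1) := Finset.sum_le_sum (fun i _ => hocc i)
      _ = A.card * (1 - W t' 1) := by rw [Finset.sum_const, nsmul_eq_mul]
  · push Not at hu
    obtain ⟨a, ha⟩ := hu
    have h0 : zeroC ∉ cyl A u := fun h => ha (h a).symm
    have e1 : (Measure.dirac zeroC : Measure (Config 1 (Fin 3))) (cyl A u) = 0 := by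
      rw [Measure.dirac_apply' _ hmc, Set.indicator_of_notMem h0]
    rw [e1, ENNReal.toReal_zero, sub_zero, abs_of_nonneg ENNReal.toReal_nonneg]
    have hsub : cyl A u ⊆ (emptyAt (a : Site 1))ᶜ := by
      intro x hx hx0
      apply ha
      rw [← hx a]
      exact hx0
    have h1 : (1 : ℝ) ≤ A.card := by
      have : 0 < A.card := Finset.card_pos.2 ⟨(a : Site 1), a.2⟩
      exact_mod_cast this
    calc (ν (cyl A u)).toReal ≤ (ν (emptyAt (a : Site 1))ᶜ).toReal :=
          ENNReal.toReal_mono (measure_ne_top _ _) (measure_mono hsub)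
      _ ≤ 1 * (1 - W t' 1) := by rw [one_mul]; exact hocc a
      _ ≤ A.card * (1 - W t' 1) := mul_le_mul_of_nonneg_right h1 hW

theorem not_weaklyExponentiallyErgodic :
    ¬ WeaklyExponentiallyErgodic coalescing (Measure.dirac zeroC) := by
  rintro ⟨-, h⟩
  obtain ⟨K, γ, hγ0, hγ1, hK⟩ := h (Measure.dirac ones) inferInstance {s 0} (fun _ => 0)
  have hcyl : cyl ({s 0} : Finset (Site 1)) (fun _ => (0 : Fin 3)) = emptyAt (s 0) := by
    ext x
    constructor
    · intro hx
      exact hx ⟨s 0, by simp⟩
    · intro hx a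
      have : (a : Site 1) = s 0 := Finset.mem_singleton.1 a.2
      rw [this]; exact hx
  have hgap : ∀ t : ℕ, gap coalescing (Measure.dirac zeroC) (Measure.dirac ones) {s 0}
      (fun _ => 0) (t + 1) = 1 - W t 1 := by
    intro t
    unfold gap
    have h0 : zeroC ∈ emptyAt (s 0) := rfl
    rw [hcyl, empty_prob_ones, Measure.dirac_apply' _ (measurableSet_emptyAt _),
      Set.indicator_of_mem h0, ENNReal.toReal_ofReal (W_nonneg t 1)]
    have : W t 1 - ((1 : Config 1 (Fin 3) → ℝ≥0∞) zeroC).toReal = -(1 - W t 1) := by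
      simp
    rw [this, abs_neg, abs_of_nonneg (by linarith [W_le_one t 1])]
  have hlow : ∀ t : ℕ, 1 ≤ K * (((t + 1 : ℕ) : ℝ) * γ ^ (t + 1)) := by
    intro t
    have h1 := hK (t + 1)
    rw [hgap] at h1
    have h2 := W_upper (t + 1) (Nat.succ_pos t) t 1 (by omega)
    have h3 : (1 : ℝ) / ((t + 1 : ℕ) : ℝ) ≤ K * γ ^ (t + 1) := by
      have : ((1 : ℕ) : ℝ) = 1 := by norm_num
      rw [this] at h2
      linarith
    have h4 : (0 : ℝ) < ((t + 1 : ℕ) : ℝ) := by positivity
    rw [div_le_iff₀ h4] at h3
    calc (1 : ℝ) ≤ K * γ ^ (t + 1) * ((t + 1 : ℕ) : ℝ) := h3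
      _ = _ := by ring
  have hlim : Tendsto (fun t : ℕ => K * (((t + 1 : ℕ) : ℝ) * γ ^ (t + 1))) atTop (𝓝 (K * 0)) :=
    ((tendsto_self_mul_const_pow_of_lt_one hγ0 hγ1).comp (tendsto_add_atTop_nat 1)).const_mul K
  rw [mul_zero] at hlim
  have := ge_of_tendsto' hlim hlow
  linarith

/-- **Theorem.** There is a probabilistic cellular automaton (coalescing random walks on `ℤ`, with
an alphabet of three symbols and a neighbourhood of two cells) which is uniformly ergodic but not
exponentially ergodic, not even in the weaker sense in which the constants may depend on the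
initial measure. -/
theorem result : ∃ (Φ : PCA 1 (Fin 3)) (π : Measure (Config 1 (Fin 3))),
    IsErgodic Φ π ∧ UniformlyErgodic Φ π ∧ ¬ ExponentiallyErgodic Φ π ∧
      ¬ WeaklyExponentiallyErgodic Φ π := by
  refine ⟨coalescing, Measure.dirac zeroC, ergodic, uniformlyErgodic, ?_,
    not_weaklyExponentiallyErgodic⟩
  rintro ⟨he, h⟩
  apply not_weaklyExponentiallyErgodic
  refine ⟨he, fun μ hμ A u => ?_⟩
  obtain ⟨K, γ, h0, h1, h2⟩ := h A u
  exact ⟨K, γ, h0, h1, h2 μ hμ⟩

end Pool.Agent.Results.MP_37af32_pr.SlowErgodicPCA
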